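import Pool.Agent.Y952.LZ.Zer

/-!
# MP_efea25_an, Q2: Littlewood polynomials with `c log ^ 2 n` zeros in `(0, 1)`

Stronger form of the starting result `ManyRealZeros` (more than `c log n` zeros for every `c`): the
order of magnitude `log ^ 2 n` is reached, with the explicit constant `1 / (2 π ^ 2)` for large `n`, and
for every degree `n ≥ 2` with an absolute constant.

Proof idea. The coefficients are the values at `j + 1` of the square wave in `log x` with step
`l = π ^ 2 / log (n + 1)`, which tends to `0`. The transform `Phi l t` of the wave changes its sign when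
`log t` moves by `l`; its Fourier coefficient in `log t` is `4 l / (π i) Γ (1 + i π / l)`, and
`|Γ (1 + i w)| ^ 2 = π w / sinh (π w)`, so that it has size at least `exp (- π ^ 2 / (2 l)) / π`, about
`n ^ (- 1 / 2)`, which beats the discretisation error for `n ^ (- 1 + ε) ≤ t ≤ n ^ (- 1 / 2 - ε)`.
-/

set_option autoImplicit false
open Filter Polynomial

namespace Pool.Agent.Results.MP_efea25_an.LogSquaredZeros

/-- Littlewood polynomials of degree `n`: all coefficients `a_0, ..., a_n` are `1` or `-1`. -/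
def IsLittlewood (n : ℕ) (p : ℝ[X]) : Prop :=
  p.natDegree = n ∧ ∀ j ≤ n, p.coeff j = 1 ∨ p.coeff j = -1

/-- The number of zeros of `p` in `[-1, 1]`, counted with multiplicity. -/
noncomputable def zerosIcc (p : ℝ[X]) : ℕ := (p.roots.filter (fun x => -1 ≤ x ∧ x ≤ 1)).card

/-- The number of distinct zeros of `p` in the open interval `(0, 1)`. -/
noncomputable def distinctZerosIoo (p : ℝ[X]) : ℕ :=
  (p.roots.toFinset.filter (fun x => 0 < x ∧ x < 1)).card

lemma distinct_le (p : ℝ[X]) : distinctZerosIoo p ≤ zerosIcc p := by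
  unfold distinctZerosIoo zerosIcc
  have h1 : (p.roots.toFinset.filter (fun x => 0 < x ∧ x < 1)) ⊆
      (p.roots.filter (fun x => -1 ≤ x ∧ x ≤ 1)).toFinset := by
    intro x hx
    rw [Finset.mem_filter, Multiset.mem_toFinset] at hx
    rw [Multiset.mem_toFinset, Multiset.mem_filter]
    exact ⟨hx.1, by linarith [hx.2.1], hx.2.2.le⟩
  exact (Finset.card_le_card h1).trans (Multiset.toFinset_card_le _)

/-- Q2 is false, and the number of zeros can be of the order `log ^ 2 n`:
(1) there is no constant `c` such that every Littlewood polynomial of degree `n ≥ 2` has at most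
`c log n` zeros in `[-1, 1]`;
(2) for every `c < 1 / (2 π ^ 2)` and all sufficiently large `n` some Littlewood polynomial of degree `n`
has more than `c log ^ 2 n` distinct zeros in `(0, 1)`;
(3) there is an absolute constant `c > 0` such that for every `n ≥ 2` some Littlewood polynomial of
degree `n` has at least `c log ^ 2 n` distinct zeros in `(0, 1)`. -/
theorem result :
    (¬ ∃ c : ℝ, 0 < c ∧ ∀ n : ℕ, 2 ≤ n → ∀ p : ℝ[X], IsLittlewood n p →
      (zerosIcc p : ℝ) ≤ c * Real.log n) ∧
    (∀ c : ℝ, c < 1 / (2 * Real.pi ^ 2) → ∀ᶠ n : ℕ in atTop, ∃ p : ℝ[X], IsLittlewood n p ∧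
      c * Real.log n ^ 2 < (distinctZerosIoo p : ℝ)) ∧
    ∃ c : ℝ, 0 < c ∧ ∀ n : ℕ, 2 ≤ n → ∃ p : ℝ[X], IsLittlewood n p ∧
      c * Real.log n ^ 2 ≤ (distinctZerosIoo p : ℝ) := by
  have hπ := Real.pi_pos
  have key : ∀ c : ℝ, c < 1 / (2 * Real.pi ^ 2) → ∀ᶠ n : ℕ in atTop, ∃ p : ℝ[X],
      IsLittlewood n p ∧ c * Real.log n ^ 2 < (distinctZerosIoo p : ℝ) := by
    intro c hc
    have hq : (0 : ℝ) < 1 / (4 * Real.pi ^ 2) := by positivity
    have hq1 : 1 / (4 * Real.pi ^ 2) < 1 / (2 * Real.pi ^ 2) := by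
      apply one_div_lt_one_div_of_lt (by positivity)
      nlinarith [sq_nonneg Real.pi, pow_pos hπ 2]
    have h := Y952.LZ.main (c := max c (1 / (4 * Real.pi ^ 2))) (lt_max_of_lt_right hq)
      (max_lt hc hq1)
    filter_upwards [h] with n hn
    obtain ⟨l, hl⟩ := hn
    refine ⟨H319R3.Littlewood.lp l n, ⟨H319R3.Littlewood.lp_natDegree l n, ?_⟩, ?_⟩
    · intro j hj
      rw [H319R3.Littlewood.lp_coeff, if_pos hj]
      exact H319R3.Littlewood.hs_cases l _
    · refine lt_of_le_of_lt ?_ hl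
      gcongr
      exact le_max_left c _
  have all : ∃ c : ℝ, 0 < c ∧ ∀ n : ℕ, 2 ≤ n → ∃ p : ℝ[X], IsLittlewood n p ∧
      c * Real.log n ^ 2 ≤ (distinctZerosIoo p : ℝ) := by
    have hq : (0 : ℝ) < 1 / (4 * Real.pi ^ 2) := by positivity
    have hq1 : 1 / (4 * Real.pi ^ 2) < 1 / (2 * Real.pi ^ 2) := by
      apply one_div_lt_one_div_of_lt (by positivity)
      nlinarith [sq_nonneg Real.pi, pow_pos hπ 2]
    obtain ⟨n0, hn0⟩ := eventually_atTop.1 (key _ hq1)
    refine ⟨min (1 / (4 * Real.pi ^ 2)) (1 / (1 + Real.log n0 ^ 2)),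
      lt_min hq (by positivity), ?_⟩
    intro n hn
    rcases le_total n0 n with h | h
    · obtain ⟨p, hp, hlt⟩ := hn0 n h
      refine ⟨p, hp, le_trans ?_ hlt.le⟩
      gcongr
      exact min_le_left _ _
    · obtain ⟨p, hp1, hp2, hp3⟩ := Y952.LZ.all_deg hn
      refine ⟨p, ⟨hp1, hp2⟩, ?_⟩
      have h1 : (1 : ℝ) ≤ (distinctZerosIoo p : ℝ) := by exact_mod_cast hp3
      refine le_trans ?_ h1
      have hn1 : (1 : ℝ) ≤ n := by exact_mod_cast (by omega : 1 ≤ n)
      have h2 : Real.log n ≤ Real.log n0 := Real.log_le_log (by linarith) (by exact_mod_cast h)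
      have h3 : 0 ≤ Real.log n := Real.log_nonneg hn1
      have h4 : Real.log n ^ 2 ≤ 1 + Real.log n0 ^ 2 := by nlinarith
      calc min (1 / (4 * Real.pi ^ 2)) (1 / (1 + Real.log n0 ^ 2)) * Real.log n ^ 2
          ≤ 1 / (1 + Real.log n0 ^ 2) * (1 + Real.log n0 ^ 2) := by
            gcongr
            exact min_le_right _ _
        _ = 1 := by field_simp
  refine ⟨?_, key, all⟩
  rintro ⟨c, hc0, hc⟩
  obtain ⟨c', hc', hall⟩ := all
  have hlog : Tendsto (fun n : ℕ => Real.log n) atTop atTop :=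
    Real.tendsto_log_atTop.comp tendsto_natCast_atTop_atTop
  obtain ⟨n, hn1, hn2⟩ := ((hlog.eventually_gt_atTop (c / c')).and (eventually_ge_atTop 2)).exists
  obtain ⟨p, hp, hle⟩ := hall n hn2
  have h1 := hc n hn2 p hp
  have h2 : (distinctZerosIoo p : ℝ) ≤ zerosIcc p := by exact_mod_cast distinct_le p
  rw [div_lt_iff₀ hc'] at hn1
  have h3 : 0 < Real.log n := by
    apply Real.log_pos
    exact_mod_cast (by omega : 1 < n)
  nlinarith

end Pool.Agent.Results.MP_efea25_an.LogSquaredZeros
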